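import Mathlib
import Pool.Agent.Helper96.Mu.PFinal

/-!
# Exact values of `g_μ(m)` for `C(n,2) - n/30 ≤ m ≤ C(n,2) + 9n/20`, `n` odd
-/

namespace Pool.Agent.Results.MP_6e2d11_co.MaxExact

open Pool.Agent.Helper39.Mu Pool.Agent.Helper96.Mu

/-- For all large odd `n` and all `m` with `C(n,2) - n/30 ≤ m ≤ C(n,2) + 9n/20` the maximum
`g_μ(m)` exists and equals `h (h - 1)² - (4 h - 5) s + s²`, where `h = (n + 1) / 2` and
`s = max (C(n,2) - m, 0)` (subtraction of natural numbers). -/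
theorem result :
    ∃ n₀ : ℕ, ∀ n ≥ n₀, Odd n → ∀ m : ℕ, 30 * (n.choose 2 - m) ≤ n →
      20 * (m - n.choose 2) ≤ 9 * n →
      BddAbove {x | ∃ (M : ℕ) (G : SimpleGraph (Fin M)), G.edgeSet.ncard = m ∧ gMu G = x} ∧
      (gMuMax m : ℤ) = starValueG n (n.choose 2 - m) := by
  obtain ⟨h1, n₀, h2, _⟩ := mainG
  obtain ⟨n₁, h3⟩ := plateau
  refine ⟨max n₀ n₁, fun n hn hodd m hm1 hm2 => ⟨h1 m, ?_⟩⟩
  rcases le_total m (n.choose 2) with h | h
  · have h4 := h2 n (le_trans (le_max_left _ _) hn) hodd (n.choose 2 - m) hm1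
    rwa [Nat.sub_sub_self h] at h4
  · have h4 := h3 n (le_trans (le_max_right _ _) hn) hodd (m - n.choose 2) hm2
    rwa [Nat.add_sub_cancel' h, ← Nat.sub_eq_zero_of_le h] at h4

end Pool.Agent.Results.MP_6e2d11_co.MaxExact
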