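import Mathlib
import Pool.Agent.Helper96.Mu.FinalF

/-!
# Sharp upper bound for `f_μ(m)` for all large `m`
-/

namespace Pool.Agent.Results.MP_6e2d11_co.SumBounds

open Pool.Agent.Helper39.Mu Pool.Agent.Helper96.Mu

/-- For all large `m` the maximum `f_μ(m)` exists and
`Φ(m) - (3/4) m - 30 √m ≤ f_μ(m) ≤ Φ(m)`, where
`Φ(m) = (m/2) √(2m + 1/4) - (5/4) m + √(2m + 1/4) - 1/2`; the upper bound is attained at
`m = C(n,2)` for all large odd `n`. -/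
theorem result :
    ∃ m₀ : ℕ,
      (∀ m ≥ m₀,
        BddAbove {x | ∃ (M : ℕ) (G : SimpleGraph (Fin M)), G.edgeSet.ncard = m ∧ fMu G = x} ∧
        bound m - 3 / 4 * m - 30 * Real.sqrt m ≤ (fMuMax m : ℝ) ∧
        (fMuMax m : ℝ) ≤ bound m) ∧
      (∀ n ≥ m₀, Odd n → (fMuMax (n.choose 2) : ℝ) = bound (n.choose 2)) := by
  obtain ⟨h1, n₀, _, h2, h3⟩ := mainF
  exact ⟨n₀, fun m hm => ⟨h1 _, h2 m hm⟩, h3⟩

end Pool.Agent.Results.MP_6e2d11_co.SumBounds
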