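import Mathlib
import Pool.Agent.Helper96.Mu.FinalF

/-!
# Exact values of `f_μ(m)` for `m = C(n,2) - j`, `16 j ≤ n`
-/

namespace Pool.Agent.Results.MP_6e2d11_co.SumExact

open Pool.Agent.Helper39.Mu Pool.Agent.Helper96.Mu

/-- For all large `n` and all `j` with `16 j ≤ n` the maximum `f_μ(C(n,2) - j)` exists and equals
`h (h - 1)² + l (l - 1)² - (4 h - 5) j + j²`, where `h = ⌈n/2⌉` and `l = ⌊n/2⌋`. -/
theorem result :
    ∃ n₀ : ℕ, ∀ n ≥ n₀, ∀ j : ℕ, 16 * j ≤ n →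
      BddAbove {x | ∃ (M : ℕ) (G : SimpleGraph (Fin M)),
        G.edgeSet.ncard = n.choose 2 - j ∧ fMu G = x} ∧
      (fMuMax (n.choose 2 - j) : ℤ) = starValue n j := by
  obtain ⟨h1, n₀, h2, _⟩ := mainF
  exact ⟨n₀, fun n hn j hj => ⟨h1 _, h2 n hn j hj⟩⟩

end Pool.Agent.Results.MP_6e2d11_co.SumExact
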